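import Mathlib
import Pool.Agent.H16.FC.All

/-!
# Fermat's equation at almost all algebraic numbers of degree `d`, for all odd exponents at once

Let `f = a_d X ^ d + ... + a_0` be a primitive polynomial with integral coefficients and `x` a root of
`f` which generates a number field `K = ℚ(x)` of degree `d`.  There are about
`(2 H) ^ (d + 1) / ζ(d + 1)` primitive polynomials with coefficients of absolute value at most `H`, almost
all of them irreducible.  We show, for every `k ≥ 3` and `ε > 0`, that for all but at most
`C H ^ (d + 1 / k + ε)` of them the following holds: for ALL odd exponents `n ≥ k` and ALL finite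
extensions `L` of `K` of degree prime to `n` (in particular for `L = K`) the equation

  `a ^ n + b ^ n + c ^ n = 0`

has no solution in nonzero `a, b, c` in `L` with `a / b = x`.  For `k = 3` these are all odd exponents.
So the points on all Fermat curves of odd degree at least `k` over all number fields of degree `d`
such that some quotient of two coordinates generates the field have at most
`C H ^ (d + 1 / k + ε)` such quotients with minimal polynomials of height at most `H`, while there are
about `H ^ (d + 1)` algebraic numbers of degree `d`; for exponents `n ≥ 1 / ε` the exponent of `H` is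
`d + 2 ε`.

The proof gives an explicit criterion: if `f(-1) = 0`, or if `f(-1)` is divisible by some prime
`q > d + k` but not by `q ^ k`, then there is no such solution.

The same is true in thin families: for all lines `{g + t h}` of coefficient vectors with
`h(-1) ≠ 0`, at most `C H ^ (1 / k + ε)` of the polynomials are exceptional, uniformly in `g` and `h`.
For instance all coefficients but one may be fixed (monic polynomials, trinomials, ...).

Proof.  By the norm the solution gives `x ^ n + 1 = y ^ n` with `y` in `K`.  Let `v` be a prime of `K`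
above the prime number `q > d + k` such that `x + 1` is divisible by `v`, to the order `s ≥ 1`.  If
`q ^ r` is the power of `q` in `n` and `e` the order of `q` at `v`, then `x ^ n + 1` has the order
`s + r e`, which is divisible by `n`, and it follows that `s ≥ k` as `e ≤ d`.  The integer `f(-1)` is the
leading coefficient of the primitive polynomial with the root `1 / (x + 1)`.  If it is divisible by
`q` then there is a pole of `1 / (x + 1)` above `q`, and the size of this pole, at least `q ^ k`, is at
most the `q`-part of `f(-1)` (`H16/LP`, `H16/FC/LFIN`).  So `f(-1)` is `k`-full outside of the primes up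
to `d + k`, and there are few such polynomials.
-/

set_option autoImplicit false

namespace Pool.Agent.Results.MP_ef6a16_nt.CoordinatesOfDegree

open NumberField

/-- `x` generates the number field `K`, which has degree `d`, and is a root of the polynomial
`a_d X ^ d + ... + a_0`. -/
def GeneratingRoot {d : ℕ} (a : Fin (d + 1) → ℤ) (K : Type) [Field K] [NumberField K] (x : K) :
    Prop :=
  Module.finrank ℚ K = d ∧ IntermediateField.adjoin ℚ {x} = ⊤ ∧
    ∑ i, (a i : K) * x ^ (i : ℕ) = 0

/-- Fermat's equation with exponent `n` has a solution in nonzero `a, b, c` with `a / b = x` in some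
extension of `K` of finite degree prime to `n`. -/
def FermatCoordinate (n : ℕ) (K : Type) [Field K] (x : K) : Prop :=
  ∃ (L : Type) (_ : Field L) (_ : Algebra K L), FiniteDimensional K L ∧
    (Module.finrank K L).Coprime n ∧
    ∃ a b c : L, a ≠ 0 ∧ b ≠ 0 ∧ c ≠ 0 ∧ a ^ n + b ^ n + c ^ n = 0 ∧ a / b = algebraMap K L x

/-- the coefficients have no common prime factor -/
def Primitive {d : ℕ} (a : Fin (d + 1) → ℤ) : Prop := ∀ q : ℕ, q.Prime → ∃ i, ¬ (q : ℤ) ∣ a i

/-- the value `a_0 - a_1 + a_2 - ...` of the polynomial at `-1` -/
def value {d : ℕ} (a : Fin (d + 1) → ℤ) : ℤ := ∑ i : Fin (d + 1), a i * (-1) ^ (i : ℕ)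

/-- The primitive polynomials of degree `d` with coefficients of absolute value at most `H` which
have a generating root `x` such that Fermat's equation with some odd exponent `n ≥ k` has a
solution with `a / b = x` as above. -/
def Exceptional (d k H : ℕ) : Set (Fin (d + 1) → ℤ) :=
  {a | (∀ i, |a i| ≤ H) ∧ Primitive a ∧
    ∃ (K : Type) (_ : Field K) (_ : NumberField K) (x : K), GeneratingRoot a K x ∧
      ∃ n : ℕ, Odd n ∧ k ≤ n ∧ FermatCoordinate n K x}

theorem result (d k : ℕ) (hd : 1 ≤ d) (hk : 3 ≤ k) :
    -- the criterion: all primes `q > d + k` divide the value at `-1` to the power `0` or `≥ k`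
    (∀ (a : Fin (d + 1) → ℤ) (K : Type) [Field K] [NumberField K] (x : K) (n : ℕ), Primitive a →
      GeneratingRoot a K x → Odd n → k ≤ n → FermatCoordinate n K x →
      value a ≠ 0 ∧ ∀ q : ℕ, q.Prime → d + k < q → (q : ℤ) ∣ value a → (q : ℤ) ^ k ∣ value a) ∧
    ∀ ε : ℝ, 0 < ε → ∃ C : ℝ, 0 < C ∧ ∀ H : ℕ, 1 ≤ H →
      -- all polynomials
      ((Exceptional d k H).Finite ∧
        ((Exceptional d k H).ncard : ℝ) ≤ C * (H : ℝ) ^ (d + 1 / (k : ℝ) + ε)) ∧
      -- lines of polynomials
      ∀ g h : Fin (d + 1) → ℤ, value h ≠ 0 →
        {t : ℤ | (fun i => g i + t * h i) ∈ Exceptional d k H}.Finite ∧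
        ({t : ℤ | (fun i => g i + t * h i) ∈ Exceptional d k H}.ncard : ℝ) ≤
          C * (H : ℝ) ^ (1 / (k : ℝ) + ε) := by
  refine ⟨fun a K _ _ x n hp hR hn hkn hF => ?_, fun ε hε => ?_⟩
  · obtain ⟨L, _, _, hL, hcop, u, v, w, hu, hv, hw, he, hx⟩ := hF
    exact Pool.Agent.H16.FC.full_sound hd hk hp ⟨hR.1, hR.2.1, hR.2.2⟩
      ⟨n, hn, hkn, L, _, _, hL, hcop, u, v, w, hu, hv, hw, he, (div_eq_iff hv).1 hx⟩
  · refine Pool.Agent.H16.FC.few_sound d k hd hk ε hε (Exceptional d k) fun H a ha => ?_
    obtain ⟨h1, h2, K, _, _, x, hR, n, hn, hkn, L, _, _, hL, hcop, u, v, w, hu, hv, hw, he,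
      hx⟩ := ha
    exact ⟨h1, h2, K, _, _, x, ⟨hR.1, hR.2.1, hR.2.2⟩, n, hn, hkn, L, _, _, hL, hcop, u, v, w, hu,
      hv, hw, he, (div_eq_iff hv).1 hx⟩

end Pool.Agent.Results.MP_ef6a16_nt.CoordinatesOfDegree
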