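import Pool.Agent.H59.SH.Quad

/-!
# Superexponential lower bounds for the solutions of Fermat's equation

Heights are the heights of Mathlib relative to `K` (the product over all places of `K` of the largest
absolute value of a coordinate, with multiplicities; not normalised by the degree).
-/

set_option autoImplicit false

namespace Pool.Agent.Results.MP_ef6a16_nt.SuperexponentialHeights

open NumberField

theorem result :
    -- (A) imaginary quadratic fields: all solutions, if `p` does not divide the discriminant and the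
    -- class number; the excluded case are the multiples of `(1, ω, ω ^ 2)` and `(1, ω ^ 2, ω)`
    (∀ (K : Type) [Field K] [NumberField K], Module.finrank ℚ K = 2 → IsEmpty (K →+* ℝ) →
      ∀ p : ℕ, p.Prime → 5 ≤ p → ¬ (p : ℤ) ∣ discr K → ¬ p ∣ classNumber K →
      ∀ a b c : K, a ≠ 0 → b ≠ 0 → c ≠ 0 → a ^ p + b ^ p + c ^ p = 0 →
      ¬ (a + b + c = 0 ∧ a ^ 2 + a * b + b ^ 2 = 0) →
        (p : ℝ) ^ (p - 2) ≤ 4 * Height.mulHeight ![a, b, c] ∧
        ((∀ v : FinitePlace K, v (p : K) < 1 → v a = v b ∧ v b = v c) →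
          ((p : ℝ) / 3) ^ (2 * p) ≤ 4 * Height.mulHeight ![a, b, c])) ∧
    -- (B) all number fields: the second case
    (∀ (K : Type) [Field K] [NumberField K] (p : ℕ), p.Prime → Module.finrank ℚ K + 1 < p →
      ∀ a b c : K, a ≠ 0 → b ≠ 0 → c ≠ 0 → a ^ p + b ^ p + c ^ p = 0 →
      (∃ v : FinitePlace K, v (p : K) < 1 ∧ ¬ (v a = v b ∧ v b = v c)) →
        (p : ℝ) ^ (p - Module.finrank ℚ K) ≤
          2 ^ Module.finrank ℚ K * Height.mulHeight ![a, b, c]) ∧
    -- (C) all number fields with a place above two of norm two, or unramified and of norm four: the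
    -- solutions in the first case for which the quotients of the sums are `p`-th powers
    (∀ (K : Type) [Field K] [NumberField K] (p : ℕ), p.Prime → 5 ≤ p → ¬ (p : ℤ) ∣ discr K →
      (∃ v : FinitePlace K, v (2 : K) < 1 ∧ (Ideal.absNorm v.maximalIdeal.asIdeal = 2 ∨
        (Ideal.absNorm v.maximalIdeal.asIdeal = 4 ∧ v (2 : K) = 1 / 4))) →
      ∀ a b c ρ σ : K, a ≠ 0 → b ≠ 0 → c ≠ 0 → a ^ p + b ^ p + c ^ p = 0 →
      b + c = ρ ^ p * (a + b) → c + a = σ ^ p * (a + b) →
      ¬ (a + b + c = 0 ∧ a ^ 2 + a * b + b ^ 2 = 0) →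
      (∀ v : FinitePlace K, v (p : K) < 1 → v a = v b ∧ v b = v c) →
        ((p : ℝ) / 3) ^ (Module.finrank ℚ K * p) ≤
          2 ^ Module.finrank ℚ K * Height.mulHeight ![a, b, c]) := by
  refine ⟨?_, ?_, ?_⟩
  · intro K _ _ h2 him p hp h5 hd hcl a b c ha hb hc h htriv
    have first : (∀ v : FinitePlace K, v (p : K) < 1 → v a = v b ∧ v b = v c) →
        ((p : ℝ) / 3) ^ (2 * p) ≤ 4 * Height.mulHeight ![a, b, c] := fun h1 =>
      (Pool.Agent.H59.SH.first_quad h2 him hp h5 hd hcl ha hb hc h h1).resolve_right htriv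
    refine ⟨?_, first⟩
    by_cases h1 : ∀ v : FinitePlace K, v (p : K) < 1 → v a = v b ∧ v b = v c
    · exact (Pool.Agent.H59.SH.numeric h5).trans (first h1)
    · push Not at h1
      obtain ⟨v, hvp, hne⟩ := h1
      have := Pool.Agent.H59.SH.second_case hp (by omega) ha hb hc h v hvp
        (fun hh => hne hh.1 hh.2)
      rw [h2] at this
      norm_num at this
      exact this
  · rintro K _ _ p hp hd a b c ha hb hc h ⟨v, hvp, hne⟩
    exact Pool.Agent.H59.SH.second_case hp hd ha hb hc h v hvp hne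
  · rintro K _ _ p hp h5 hd ⟨v, hv2, hv⟩ a b c ρ σ ha hb hc h hρ hσ htriv h1
    exact (Pool.Agent.H59.SH.abel_case hp h5 hd ha hb hc h h1 hρ hσ v hv2 hv).resolve_right htriv

end Pool.Agent.Results.MP_ef6a16_nt.SuperexponentialHeights
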